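import Pool.Agent.MP_893164_nt.PairCrt

/-! The exact threshold `1/e` for the relaxation of the covering problem that keeps joint laws
for pairs of points and all intersection counts given by the Chinese remainder theorem. -/

noncomputable section

namespace Pool.Agent.Results.MP_893164_nt.PairBarrier

open Finset Filter Topology
open Pool.Agent.MP_893164_nt
open Pool.Agent.MP_7b352a_nt.Sp (pri mem_pri)

/-- The primes `p` with `n ^ ε < p ≤ n`. -/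
def primes (n : ℕ) (ε : ℝ) : Finset ℕ :=
  (Icc 1 n).filter fun p => p.Prime ∧ (n : ℝ) ^ ε < p

/-- Fractional coverings with laws on pairs: `W m m' R R'` is the weight of the event that `R` and
`R'` are the sets of primes whose classes contain `m` and `m'`. -/
def Relaxed (n : ℕ) (ε : ℝ) : Prop :=
  ∃ W : ℕ → ℕ → Finset ℕ → Finset ℕ → ℝ,
    (∀ m m' R R', 0 ≤ W m m' R R') ∧ (∀ m m' R R', W m m' R R' = W m' m R' R) ∧
    (∀ m, W m m ∅ ∅ = 0) ∧
    (∀ m m' R R', W m m' R R' ≠ 0 → ∀ p ∈ primes n ε,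
      (m ≡ m' [MOD p] → (p ∈ R ↔ p ∈ R')) ∧ (¬ m ≡ m' [MOD p] → ¬ (p ∈ R ∧ p ∈ R'))) ∧
    (∀ m ∈ Icc 1 n, ∀ m' ∈ Icc 1 n, ∀ R ⊆ primes n ε,
      ∑ R' ∈ (primes n ε).powerset, W m m' R R' = W m m R R) ∧
    ∀ D ⊆ primes n ε, ∀ D' ⊆ primes n ε, ∀ a r a' r' l : ℕ, 0 < r →
      r.Coprime (∏ p ∈ D, p) → r'.Coprime (∏ p ∈ D', p) →
      (∀ p ∈ D ∩ D', a ≡ a' [MOD p] ∧ r ≡ r' [MOD p]) →
      (∀ i < l, a + r * i ∈ Icc 1 n ∧ a' + r' * i ∈ Icc 1 n) →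
      (⌊(l : ℝ) / (∏ p ∈ D ∪ D', p : ℕ)⌋₊ : ℝ) ≤
          ∑ i ∈ range l, ∑ R ∈ (primes n ε).powerset with D ⊆ R,
            ∑ R' ∈ (primes n ε).powerset with D' ⊆ R', W (a + r * i) (a' + r' * i) R R' ∧
        ∑ i ∈ range l, ∑ R ∈ (primes n ε).powerset with D ⊆ R,
            ∑ R' ∈ (primes n ε).powerset with D' ⊆ R', W (a + r * i) (a' + r' * i) R R' ≤
          (⌈(l : ℝ) / (∏ p ∈ D ∪ D', p : ℕ)⌉₊ : ℝ)

/-- Admissible exponents of the problem file. -/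
def Admissible (n : ℕ) (ε : ℝ) : Prop :=
  ∃ c : ℕ → ℕ, ∀ m ∈ Icc 1 n, ∃ p ∈ primes n ε, m ≡ c p [MOD p]

theorem mem_primes {n p : ℕ} {ε : ℝ} :
    p ∈ primes n ε ↔ (1 ≤ p ∧ p ≤ n) ∧ p.Prime ∧ (n : ℝ) ^ ε < p := by
  rw [primes, mem_filter, mem_Icc]

/-- A true covering is a fractional covering. -/
theorem relaxed_of_admissible {n : ℕ} {ε : ℝ} (h : Admissible n ε) : Relaxed n ε := by
  obtain ⟨c, hc⟩ := h
  obtain ⟨F, hF⟩ : ∃ F : ℕ → Finset ℕ,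
      F = fun m => (primes n ε).filter fun p => m ≡ c p [MOD p] := ⟨_, rfl⟩
  have mF : ∀ m p, p ∈ F m ↔ p ∈ primes n ε ∧ m ≡ c p [MOD p] := fun m p => by
    rw [hF, mem_filter]
  have sF : ∀ m, F m ⊆ primes n ε := fun m p hp => ((mF m p).1 hp).1
  refine ⟨fun m m' R R' => if (m ∈ Icc 1 n ∧ m' ∈ Icc 1 n) ∧ R = F m ∧ R' = F m' then 1 else 0,
    fun m m' R R' => by beta_reduce; split_ifs <;> norm_num,
    fun m m' R R' => if_congr (by tauto) rfl rfl, fun m => if_neg fun h => ?_,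
    fun m m' R R' h p hp => ?_, fun m hm m' hm' R _ => ?_,
    fun D hD D' hD' a r a' r' l _ hr hr' hI hl => ?_⟩
  · obtain ⟨p, hp, h'⟩ := hc m h.1.1
    exact notMem_empty p (h.2.1 ▸ (mF m p).2 ⟨hp, h'⟩)
  · obtain ⟨-, rfl, rfl⟩ : (m ∈ Icc 1 n ∧ m' ∈ Icc 1 n) ∧ R = F m ∧ R' = F m' :=
      by_contra fun h' => h (if_neg h')
    rw [mF, mF]
    exact ⟨fun e => and_congr_right fun _ => ⟨fun h => e.symm.trans h, fun h => e.trans h⟩,
      fun e h => e (h.1.2.trans h.2.2.symm)⟩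
  · by_cases e : R = F m <;> simp [hm, hm', e, sF]
  · have hP : ∀ p ∈ D ∪ D', p.Prime := fun p hp => (mem_primes.1 (union_subset hD hD' hp)).2.1
    obtain ⟨v, hv⟩ := crt2 (D ∪ D') hP (fun p => if p ∈ D then a else a')
      (fun p => if p ∈ D then r else r') (fun p hp => by
        split_ifs with h
        · exact hr.coprime_dvd_right (dvd_prod_of_mem _ h)
        · exact hr'.coprime_dvd_right (dvd_prod_of_mem _ ((mem_union.1 hp).resolve_left h))) c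
    have e : ∑ i ∈ range l, ∑ R ∈ (primes n ε).powerset with D ⊆ R,
        ∑ R' ∈ (primes n ε).powerset with D' ⊆ R',
        (if (a + r * i ∈ Icc 1 n ∧ a' + r' * i ∈ Icc 1 n) ∧ R = F (a + r * i) ∧
          R' = F (a' + r' * i) then (1 : ℝ) else 0) =
        #{i ∈ range l | i ≡ v [MOD ∏ p ∈ D ∪ D', p]} := by
      rw [card_filter]
      push_cast
      refine sum_congr rfl fun i hi => ?_
      simp only [hl i (mem_range.1 hi), and_self, true_and, ite_and, sum_ite_irrel, sum_const_zero,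
        sum_ite_eq', mem_filter, mem_powerset, sF]
      rw [← ite_and]
      refine if_congr ?_ rfl rfl
      rw [← hv]
      refine ⟨fun h p hp => ?_, fun h => ⟨fun p hp => (mF _ p).2 ⟨hD hp, ?_⟩,
        fun p hp => (mF _ p).2 ⟨hD' hp, ?_⟩⟩⟩
      · by_cases h1 : p ∈ D
        · simpa only [h1, if_true] using ((mF _ p).1 (h.1 h1)).2
        · simpa only [h1, if_false] using ((mF _ p).1 (h.2 ((mem_union.1 hp).resolve_left h1))).2
      · simpa only [hp, if_true] using h p (mem_union_left _ hp)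
      · by_cases h1 : p ∈ D
        · have h2 := hI p (mem_inter.2 ⟨h1, hp⟩)
          exact (h2.1.add (h2.2.mul_right i)).symm.trans
            (by simpa only [h1, if_true] using h p (mem_union_left _ h1))
        · simpa only [h1, if_false] using h p (mem_union_right _ hp)
    have := count_mod l _ v (prod_pos fun p hp => (hP p hp).pos)
    rw [e]
    exact ⟨by exact_mod_cast this.1, by exact_mod_cast this.2⟩

theorem lt_of_mem {x : ℝ} (hx : 0 ≤ x) {b p : ℕ} (hp : p ∈ pri ⌊x⌋₊ b) : x < p :=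
  (Nat.floor_lt hx).1 (mem_pri.1 hp).1.1

theorem lower {γ : ℝ} (hε : γ < Real.exp (-1)) :
    ∀ᶠ n : ℕ in atTop, ∀ ε ≤ γ, Relaxed n ε := by
  have e1 := Real.exp_neg_one_gt_d9
  have e2 := Real.exp_neg_one_lt_d9
  obtain ⟨a, ha, a2⟩ := exists_between (max_lt hε (by linarith : 0.36 < Real.exp (-1)))
  obtain ⟨a0, a1⟩ := max_lt_iff.1 ha
  have a3 : 0 < a := by linarith
  have hu := rng a3 (by linarith : a ≤ 0.66)
  have hA := rng a3 (by linarith : a ≤ 0.52)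
  have hv := rng_one (by norm_num : (0 : ℝ) < 0.66) (by norm_num)
  have g1 : Real.log (0.66 / a) = Real.log 0.66 - Real.log a := Real.log_div (by norm_num) a3.ne'
  have g2 : Real.log (1 / 0.66) = -Real.log 0.66 := by rw [one_div, Real.log_inv]
  have l1 : Real.log (0.66 / a) < 1 := by
    have := Real.log_le_sub_one_of_pos (show 0 < 0.66 / a by positivity)
    have : 0.66 / a < 2 := by rw [div_lt_iff₀ a3]; linarith
    linarith
  have l3 : 1 < Real.log (0.66 / a) + Real.log (1 / 0.66) := by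
    linarith [(Real.log_lt_iff_lt_exp a3).2 a2]
  have l4 : 10 * (Real.log (0.66 / a) + Real.log (1 / 0.66) - 1) < Real.log (0.66 / a) := by
    have h1 := Real.log_le_sub_one_of_pos (show 0 < Real.exp (-1) / a by positivity)
    have h2 := Real.log_le_sub_one_of_pos (show 0 < a / 0.66 by positivity)
    rw [Real.log_div (Real.exp_pos _).ne' a3.ne', Real.log_exp] at h1
    rw [Real.log_div a3.ne' (by norm_num)] at h2
    have : Real.exp (-1) / a < 1.03 := by rw [div_lt_iff₀ a3]; linarith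
    have : a / 0.66 < 0.6 := by rw [div_lt_iff₀ (by norm_num)]; linarith
    linarith
  have l5 : Real.log (0.52 / a) + 1 / 25 < Real.log (1 / 0.66) := by
    have h1 := Real.log_le_sub_one_of_pos (show 0 < 0.52 / a * 0.66 by positivity)
    rw [Real.log_mul (by positivity) (by norm_num)] at h1
    have : 0.52 / a * 0.66 < 0.955 := by rw [div_mul_eq_mul_div, div_lt_iff₀ a3]; linarith
    linarith
  obtain ⟨δ, d0, d1⟩ : ∃ δ : ℝ, 0 < δ ∧ 1 + δ < Real.log (0.66 / a) + Real.log (1 / 0.66) :=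
    ⟨(Real.log (0.66 / a) + Real.log (1 / 0.66) - 1) / 2, by linarith, by linarith⟩
  filter_upwards [hu.eventually (gt_mem_nhds l1), (hu.add hv).eventually (lt_mem_nhds d1),
    (((hu.add hv).sub_const 1).const_mul 10).eventually_lt hu l4,
    (hA.add_const (1 / 25)).eventually_lt hv l5,
    (pow_top (by norm_num : (0 : ℝ) < 0.02)).eventually_ge_atTop (5000 + 2 / δ),
    eventually_ge_atTop 1] with n b1 b2 b3 b4 b5 b6 ε hγ
  have n1 : (1 : ℝ) ≤ n := by exact_mod_cast b6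
  have n0 : (0 : ℝ) < n := by linarith
  have d2 : 0 < 2 / δ := by positivity
  have mono : ∀ {s t : ℝ}, s ≤ t → (n : ℝ) ^ s ≤ (n : ℝ) ^ t :=
    fun h => Real.rpow_le_rpow_of_exponent_le n1 h
  have pos : ∀ s : ℝ, 0 < (n : ℝ) ^ s := Real.rpow_pos_of_pos n0
  have big : ∀ {s t : ℝ} {x y : ℝ}, 1.02 ≤ s + t → (n : ℝ) ^ s < x → (n : ℝ) ^ t < y →
      (5000 + 2 / δ) * n < x * y := fun {s t x y} h hx hy => by
    have h1 := mul_lt_mul'' hx hy (pos s).le (pos t).le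
    rw [← Real.rpow_add n0] at h1
    have h2 := mono (show 0.02 + 1 ≤ s + t by linarith)
    rw [Real.rpow_add_one n0.ne'] at h2
    nlinarith
  have yn : ⌊(n : ℝ) ^ (0.66 : ℝ)⌋₊ ≤ n :=
    Nat.floor_le_of_le ((mono (by norm_num)).trans (Real.rpow_one _).le)
  have hL : ∀ p ∈ pri ⌊(n : ℝ) ^ a⌋₊ ⌊(n : ℝ) ^ (0.66 : ℝ)⌋₊, (n : ℝ) ^ a < p :=
    fun p hp => lt_of_mem (pos _).le hp
  have hM : ∀ p ∈ pri ⌊(n : ℝ) ^ (0.66 : ℝ)⌋₊ n, (n : ℝ) ^ (0.66 : ℝ) < p :=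
    fun p hp => lt_of_mem (pos _).le hp
  have hG : ∀ p ∈ pri ⌊(n : ℝ) ^ a⌋₊ ⌊(n : ℝ) ^ (0.66 : ℝ)⌋₊ ∪ pri ⌊(n : ℝ) ^ (0.66 : ℝ)⌋₊ n,
      p.Prime ∧ p ≤ n ∧ (n : ℝ) ^ a < p := fun p hp => by
    rcases mem_union.1 hp with h | h
    · exact ⟨(mem_pri.1 h).2, (mem_pri.1 h).1.2.trans yn, hL p h⟩
    · exact ⟨(mem_pri.1 h).2, (mem_pri.1 h).1.2, (mono (by linarith)).trans_lt (hM p h)⟩
  have h3 : ∀ p q r : ℕ, (n : ℝ) ^ a < p → (n : ℝ) ^ a < q → (n : ℝ) ^ a < r →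
      (5000 + 2 / δ) * n < (p : ℝ) * q * r := fun p q r hp hq hr =>
    big (s := a + a) (by linarith)
      (by rw [Real.rpow_add n0]; exact mul_lt_mul'' hp hq (pos _).le (pos _).le) hr
  have h0 : 5000 + 2 / δ ≤ (n : ℝ) ^ a := b5.trans (mono (by linarith))
  generalize hL' : pri ⌊(n : ℝ) ^ a⌋₊ ⌊(n : ℝ) ^ (0.66 : ℝ)⌋₊ = L at *
  generalize hM' : pri ⌊(n : ℝ) ^ (0.66 : ℝ)⌋₊ n = M at *
  obtain ⟨u, hu'⟩ : ∃ u, u = ∑ p ∈ L, 1 / (p : ℝ) := ⟨_, rfl⟩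
  obtain ⟨v, hv'⟩ : ∃ v, v = ∑ p ∈ M, 1 / (p : ℝ) := ⟨_, rfl⟩
  rw [← hu'] at b1 b2 b3
  rw [← hv'] at b2 b3
  have t0 : 0 < u + v - 1 := by linarith
  have u0 : 0 < u := by linarith
  have k1 : 10 ≤ u / (u + v - 1) := by
    rw [le_div_iff₀ t0]
    linarith
  have k2 : 2 * (u / (u + v - 1)) ≤ 2 / δ := by
    rw [← mul_div_assoc]
    exact div_le_div₀ zero_le_two (by linarith) d0 (by linarith)
  obtain ⟨w, we, hw⟩ := exists_pair_law (P := primes n ε) (n := n) (L := L) (M := M)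
    (A := pri ⌊(n : ℝ) ^ a⌋₊ ⌊(n : ℝ) ^ (0.52 : ℝ)⌋₊) (fun p hp => (mem_primes.1 hp).2.1.two_le)
    (fun p hp => mem_primes.2 ⟨⟨(hG p hp).1.pos, (hG p hp).2.1⟩, (hG p hp).1,
      (mono (hγ.trans a0.le)).trans_lt (hG p hp).2.2⟩)
    (fun p hp => hL' ▸ mem_pri.2 ⟨⟨(mem_pri.1 hp).1.1,
      (mem_pri.1 hp).1.2.trans (Nat.floor_le_floor (mono (by norm_num)))⟩, (mem_pri.1 hp).2⟩)
    (fun q hq h => (mem_pri.1 (hM' ▸ hq)).1.1.not_ge (mem_pri.1 (hL' ▸ h)).1.2) b6 k1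
    (fun p hp => by
      have : (200 : ℝ) ≤ p := by linarith [(hG p hp).2.2]
      exact_mod_cast this)
    (fun p hp => by linarith [hL p hp])
    (by rw [← hu', ← hv', one_div_div, sub_mul, div_mul_cancel₀ _ u0.ne']; ring) b4.le
    (fun p hp q hq => by nlinarith [big (by linarith) (hG p hp).2.2 (hM q hq)])
    (fun p hp q hq => by
      have : ∀ p ∈ (L ∪ M) \ pri ⌊(n : ℝ) ^ a⌋₊ ⌊(n : ℝ) ^ (0.52 : ℝ)⌋₊,
          (n : ℝ) ^ (0.52 : ℝ) < p := fun p hp => by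
        obtain ⟨h1, h2⟩ := mem_sdiff.1 hp
        refine (Nat.floor_lt (pos _).le).1 (not_le.1 fun h => h2 ?_)
        exact mem_pri.2 ⟨⟨(Nat.floor_lt (pos _).le).2 (hG p h1).2.2, h⟩, (hG p h1).1⟩
      nlinarith [big (by norm_num) (this p hp) (this q hq)])
    (fun p hp q hq r hr => by nlinarith [h3 p q r (hL p hp) (hL q hq) (hL r hr)])
  obtain ⟨W, w1, w2, w3, w4, w5, w6⟩ := family we (fun p hp => (hG p hp).1)
    (fun p hp q hq r hr => by
      have : (n : ℝ) < p * q * r := by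
        nlinarith [h3 p q r (hG p hp).2.2 (hG q hq).2.2 (hG r hr).2.2]
      exact_mod_cast this) hw
  refine ⟨W, w1, w2, w3, w4, w5, fun D hD D' hD' s r s' r' l hr _ _ hI hl => ?_⟩
  have : l ≤ n := by
    rcases l with _ | l
    · exact Nat.zero_le _
    · have h1 := (mem_Icc.1 (hl 0 (Nat.succ_pos _)).1).1
      have h2 := (mem_Icc.1 (hl l (Nat.lt_succ_self _)).1).2
      have h3 := Nat.le_mul_of_pos_left l hr
      omega
  exact count_good (fun p hp => (mem_primes.1 (union_subset hD hD' hp)).1.1) this fun i hi =>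
    w6 _ (hl i hi).1 _ (hl i hi).2 D hD D' hD' fun p hp =>
      (hI p hp).1.add ((hI p hp).2.mul_right i)

theorem upper {γ : ℝ} (hε : Real.exp (-1) < γ) :
    ∀ᶠ n : ℕ in atTop, ∀ ε, γ ≤ ε → ¬ Relaxed n ε := by
  have e0 := Real.exp_pos (-1)
  have e2 := Real.exp_neg_one_lt_d9
  obtain ⟨α, a1, a2, a3⟩ : ∃ α : ℝ, Real.exp (-1) < α ∧ α ≤ γ ∧ α ≤ 1 :=
    ⟨min γ 1, lt_min hε (by linarith), min_le_left _ _, min_le_right _ _⟩
  have a0 : 0 < α := by linarith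
  obtain ⟨β, b1, b2⟩ := exists_between ((div_lt_one a0).2 a1)
  have b0 : 0 < β := (div_pos e0 a0).trans b1
  have l1 : Real.log (1 / α) + Real.log (1 / β) + 0 < 1 := by
    rw [div_lt_iff₀ a0] at b1
    have := (Real.lt_log_iff_exp_lt (mul_pos b0 a0)).2 b1
    rw [Real.log_mul b0.ne' a0.ne'] at this
    rw [one_div, one_div, Real.log_inv, Real.log_inv]
    linarith
  have h3 : Tendsto (fun n : ℕ => (n : ℝ) ^ (-(1 - β))) atTop (𝓝 0) :=
    (tendsto_rpow_neg_atTop (by linarith)).comp tendsto_natCast_atTop_atTop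
  filter_upwards [(((rng_one a0 a3).add (rng_one b0 b2.le)).add h3).eventually (gt_mem_nhds l1),
    eventually_ge_atTop 1] with n c1 c2 ε hγ
  rintro ⟨W, W0, -, we, -, W5, hW⟩
  obtain ⟨w, hw'⟩ : ∃ w : ℕ → Finset ℕ → ℝ, w = fun m R => W m m R R := ⟨_, rfl⟩
  have w0 : ∀ m R, 0 ≤ w m R := fun m R => hw' ▸ W0 m m R R
  replace we : ∀ m, w m ∅ = 0 := fun m => hw' ▸ we m
  have n1 : (1 : ℝ) ≤ n := by exact_mod_cast c2
  have n0 : (0 : ℝ) < n := by linarith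
  have x0 : 0 < (n : ℝ) ^ α := Real.rpow_pos_of_pos n0 _
  have y0 : 0 < (n : ℝ) ^ β := Real.rpow_pos_of_pos n0 _
  have hI : ∀ i < n, 1 + 1 * i ∈ Icc 1 n := fun i hi => mem_Icc.2 (by omega)
  have hw : ∀ D ⊆ primes n ε, (⌊(n : ℝ) / (∏ p ∈ D, p : ℕ)⌋₊ : ℝ) ≤
      ∑ i ∈ range n, corr (primes n ε) (w (1 + 1 * i)) D ∧
      ∑ i ∈ range n, corr (primes n ε) (w (1 + 1 * i)) D ≤ ⌈(n : ℝ) / (∏ p ∈ D, p : ℕ)⌉₊ := by
    intro D hD
    have := hW D hD ∅ (empty_subset _) 1 1 1 1 n one_pos (Nat.coprime_one_left _)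
      (Nat.coprime_one_left _) (by simp) fun i hi => ⟨hI i hi, hI i hi⟩
    rwa [union_empty, filter_true_of_mem fun _ _ => empty_subset _,
      sum_congr (g := fun i => corr (primes n ε) (w (1 + 1 * i)) D) rfl fun i hi =>
        sum_congr rfl fun R hR => hw' ▸ W5 _ (hI i (mem_range.1 hi)) _ (hI i (mem_range.1 hi)) R
          (mem_powerset.1 (mem_filter.1 hR).1)] at this
  have f1 := (hw ∅ (empty_subset _)).1
  rw [prod_empty, Nat.cast_one, div_one, Nat.floor_natCast] at f1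
  have f2 : ∀ p ∈ primes n ε, ∑ i ∈ range n, corr (primes n ε) (w (1 + 1 * i)) {p} ≤
      n * (1 / p) + 1 := fun p hp => by
    have := (hw {p} (singleton_subset_iff.2 hp)).2
    rw [prod_singleton] at this
    rw [mul_one_div]
    exact this.trans (Nat.ceil_lt_add_one (by positivity)).le
  have f3 : (n : ℝ) ≤ ∑ p ∈ primes n ε, (n * (1 / (p : ℝ)) + 1) :=
    calc (n : ℝ) ≤ ∑ i ∈ range n, corr (primes n ε) (w (1 + 1 * i)) ∅ := f1
      _ ≤ ∑ i ∈ range n, ∑ p ∈ primes n ε, corr (primes n ε) (w (1 + 1 * i)) {p} :=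
        sum_le_sum fun i _ => union_bound _ _ (w0 _) (we _)
      _ = _ := sum_comm
      _ ≤ _ := sum_le_sum f2
  have f4 : ∑ p ∈ primes n ε, 1 / (p : ℝ) ≤ ∑ p ∈ pri ⌊(n : ℝ) ^ α⌋₊ n, 1 / (p : ℝ) := by
    refine sum_le_sum_of_subset_of_nonneg (fun p hp => ?_) fun _ _ _ => by positivity
    obtain ⟨h1, h2, h3⟩ := mem_primes.1 hp
    exact mem_pri.2 ⟨⟨(Nat.floor_lt x0.le).2
      ((Real.rpow_le_rpow_of_exponent_le n1 (a2.trans hγ)).trans_lt h3), h1.2⟩, h2⟩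
  have f5 : #(primes n ε) ≤ ⌊(n : ℝ) ^ β⌋₊ + #(pri ⌊(n : ℝ) ^ β⌋₊ n) := by
    refine (card_le_card (t := Icc 1 ⌊(n : ℝ) ^ β⌋₊ ∪ pri ⌊(n : ℝ) ^ β⌋₊ n) fun p hp => ?_).trans
      ((card_union_le _ _).trans (by simp))
    obtain ⟨h1, h2, -⟩ := mem_primes.1 hp
    rw [mem_union, mem_Icc, mem_pri]
    rcases le_or_gt p ⌊(n : ℝ) ^ β⌋₊ with h | h
    exacts [Or.inl ⟨h1.1, h⟩, Or.inr ⟨⟨h, h1.2⟩, h2⟩]
  have f6 : (#(pri ⌊(n : ℝ) ^ β⌋₊ n) : ℝ) ≤ n * ∑ p ∈ pri ⌊(n : ℝ) ^ β⌋₊ n, 1 / (p : ℝ) := by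
    rw [mul_sum, card_eq_sum_ones]
    push_cast
    refine sum_le_sum fun p hp => ?_
    obtain ⟨h1, h2⟩ := mem_pri.1 hp
    rw [mul_one_div, le_div_iff₀ (by exact_mod_cast h2.pos), one_mul]
    exact_mod_cast h1.2
  have f7 : (⌊(n : ℝ) ^ β⌋₊ : ℝ) ≤ n * (n : ℝ) ^ (-(1 - β)) := by
    rw [mul_comm, ← Real.rpow_add_one n0.ne', show -(1 - β) + 1 = β by ring]
    exact Nat.floor_le y0.le
  have f8 : (#(primes n ε) : ℝ) ≤ ⌊(n : ℝ) ^ β⌋₊ + #(pri ⌊(n : ℝ) ^ β⌋₊ n) := by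
    exact_mod_cast f5
  rw [sum_add_distrib, ← mul_sum, sum_const, nsmul_eq_mul, mul_one] at f3
  have f9 := mul_le_mul_of_nonneg_left f4 n0.le
  have f10 := mul_lt_mul_of_pos_left c1 n0
  rw [mul_add, mul_add] at f10
  linarith

theorem result (δ : ℝ) (hδ : 0 < δ) : ∀ᶠ n : ℕ in atTop, ∀ ε : ℝ,
    δ ≤ |ε - Real.exp (-1)| → (Relaxed n ε ↔ ε < Real.exp (-1)) := by
  filter_upwards [lower (sub_lt_self (Real.exp (-1)) hδ),
    upper (lt_add_of_pos_right (Real.exp (-1)) hδ)] with n h1 h2 ε h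
  rcases le_abs'.1 h with h | h
  · exact iff_of_true (h1 ε (by linarith)) (by linarith)
  · exact iff_of_false (h2 ε (by linarith)) (by linarith)

end Pool.Agent.Results.MP_893164_nt.PairBarrier
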